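import Mathlib
import Pool.Agent.Helper304.Square

set_option autoImplicit false

namespace Pool.Agent.Results.MP_aa1cf3_an.BoundedCompleteDouble

open MeasureTheory Filter Topology

/-- Lebesgue measure on the unit square `I² = [0,1] × [0,1]`, as a measure on `ℝ × ℝ`. -/
noncomputable def squareMeasure : Measure (ℝ × ℝ) :=
  volume.restrict (Set.Icc 0 1 ×ˢ Set.Icc 0 1)

/-- A double orthonormal system on `I²`: a family `φ_{ik}` in `L²(I²)`, indexed by pairs of
natural numbers (the index `i = 0, 1, 2, …` stands for the positive integer `i + 1`), with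
`∫ φ_{ik} φ_{jl} = 1` if `(i,k) = (j,l)` and `0` otherwise. -/
structure IsDoubleONS (φ : ℕ → ℕ → ℝ × ℝ → ℝ) : Prop where
  memL2 : ∀ i k, MemLp (φ i k) 2 squareMeasure
  orthonormal : ∀ i k j l, ∫ p, φ i k p * φ j l p ∂squareMeasure = if (i, k) = (j, l) then 1 else 0

/-- Property (i): the system is uniformly bounded. -/
def UniformlyBounded (φ : ℕ → ℕ → ℝ × ℝ → ℝ) : Prop :=
  ∃ M : ℝ, ∀ i k, ∀ᵐ p ∂squareMeasure, |φ i k p| ≤ M

/-- Property (ii): the system is complete in `L²(I²)`: a function of `L²(I²)` that is orthogonal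
to all `φ_{ik}` vanishes almost everywhere. -/
def CompleteL2 (φ : ℕ → ℕ → ℝ × ℝ → ℝ) : Prop :=
  ∀ f : ℝ × ℝ → ℝ, MemLp f 2 squareMeasure →
    (∀ i k, ∫ p, f p * φ i k p ∂squareMeasure = 0) → f =ᵐ[squareMeasure] 0

/-- The rectangular partial sum `S_{mn}` of a double series with terms `t i k`. -/
noncomputable def rectSum (t : ℕ → ℕ → ℝ) (m n : ℕ) : ℝ :=
  ∑ i ∈ Finset.range m, ∑ k ∈ Finset.range n, t i k

/-- Convergence of the double series `∑ t_{ik}` in Pringsheim's sense: `S_{mn}` has a finite limit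
as `min (m, n) → ∞`. -/
def PringsheimConverges (t : ℕ → ℕ → ℝ) : Prop :=
  ∃ s : ℝ, ∀ ε : ℝ, 0 < ε → ∃ N : ℕ, ∀ m n : ℕ, N ≤ min m n → |rectSum t m n - s| < ε

/-- Regular convergence of the double series `∑ t_{ik}`: convergence in Pringsheim's sense together
with convergence of every row series and every column series. -/
def RegularlyConverges (t : ℕ → ℕ → ℝ) : Prop :=
  PringsheimConverges t ∧
  (∀ i, ∃ s : ℝ, Tendsto (fun n => ∑ k ∈ Finset.range n, t i k) atTop (𝓝 s)) ∧
  (∀ k, ∃ s : ℝ, Tendsto (fun m => ∑ i ∈ Finset.range m, t i k) atTop (𝓝 s))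

/-- Property (iii) for regular convergence: for every square-summable array of coefficients the
double series converges regularly almost everywhere on `I²`. -/
def RegularConvergenceSystem (φ : ℕ → ℕ → ℝ × ℝ → ℝ) : Prop :=
  ∀ a : ℕ → ℕ → ℝ, (Summable fun q : ℕ × ℕ => a q.1 q.2 ^ 2) →
    ∀ᵐ p ∂squareMeasure, RegularlyConverges fun i k => a i k * φ i k p

/-- There is a double orthonormal system on the unit square which is uniformly bounded, complete
in `L²(I²)`, and such that every double series with square-summable coefficients converges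
regularly (in particular, in Pringsheim's sense) almost everywhere. -/
theorem result : ∃ φ : ℕ → ℕ → ℝ × ℝ → ℝ,
    IsDoubleONS φ ∧ UniformlyBounded φ ∧ CompleteL2 φ ∧ RegularConvergenceSystem φ := by
  obtain ⟨φ, hmeas, hbd, horth, hcomp, hconv⟩ :=
    Helper304.Assembly.exists_system Helper304.Square.dig_sign Helper304.Square.dig_gen
  have hμ : squareMeasure = Helper304.Square.μI := rfl
  refine ⟨fun i k => φ (i, k), ⟨fun i k => ?_, fun i k j l => ?_⟩, ⟨5, fun i k => ?_⟩,
    fun f hf h => ?_, fun a ha => ?_⟩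
  · rw [hμ]
    exact MemLp.of_bound (hmeas _).aestronglyMeasurable 5 (ae_of_all _ fun p => by
      rw [Real.norm_eq_abs]; exact hbd _ p)
  · exact horth (i, k) (j, l)
  · exact ae_of_all _ fun p => hbd _ p
  · exact hcomp f hf fun q => h q.1 q.2
  · filter_upwards [hconv (fun q => a q.1 q.2) ha] with p ⟨⟨s, hs⟩, h2, h3⟩
    refine ⟨⟨s, fun ε hε => ?_⟩, h2, h3⟩
    rw [Metric.tendsto_atTop] at hs
    obtain ⟨N, hN⟩ := hs ε hε
    refine ⟨max N.1 N.2, fun m n hmn => ?_⟩
    have h4 := hN (m, n) ⟨by simp only; omega, by simp only; omega⟩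
    rw [Real.dist_eq, Finset.sum_product] at h4
    exact h4

end Pool.Agent.Results.MP_aa1cf3_an.BoundedCompleteDouble
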